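import Mathlib

/-!
# The space of points of a locally temperate frame is locally strongly sober

This answers Q1 of MP_405999_gt in the affirmative.
-/

namespace Pool.Agent.Results.MP_405999_gt.PointSpace

open Set Topology

universe u

/-- `F` is a filter on the lattice `L`. -/
structure IsFilterOn {L : Type u} [Order.Frame L] (F : Set L) : Prop where
  top_mem : ⊤ ∈ F
  upward : ∀ u v, u ∈ F → u ≤ v → v ∈ F
  inf_mem : ∀ u v, u ∈ F → v ∈ F → u ⊓ v ∈ F

/-- `F` is Scott-open: whenever a directed family has its supremum in `F`, some member of the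
family lies in `F`. -/
def IsScottOpen {L : Type u} [Order.Frame L] (F : Set L) : Prop :=
  ∀ D : Set L, D.Nonempty → DirectedOn (· ≤ ·) D → sSup D ∈ F → ∃ d ∈ D, d ∈ F

/-- The join `F ∨ G = {u ∧ v : u ∈ F, v ∈ G}` of two filters. -/
def filterJoin {L : Type u} [Order.Frame L] (F G : Set L) : Set L :=
  {w | ∃ u ∈ F, ∃ v ∈ G, w = u ⊓ v}

/-- The frame `L` is locally temperate: the join of any two Scott-open filters is Scott-open. -/
def LocallyTemperate (L : Type u) [Order.Frame L] : Prop :=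
  ∀ F G : Set L, IsFilterOn F → IsFilterOn G → IsScottOpen F → IsScottOpen G →
    IsScottOpen (filterJoin F G)

/-- The points of `L`: its completely prime filters. -/
structure Pt (L : Type u) [Order.Frame L] where
  /-- the underlying set of the filter -/
  carrier : Set L
  isFilter : IsFilterOn carrier
  completelyPrime : ∀ S : Set L, sSup S ∈ carrier → ∃ u ∈ S, u ∈ carrier

variable {L : Type u} [Order.Frame L]

theorem Pt.ext {x y : Pt L} (h : x.carrier = y.carrier) : x = y := by
  cases x; cases y; simp_all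

/-- The open set `O_u` of the space of points. -/
def O (u : L) : Set (Pt L) := {x | u ∈ x.carrier}

theorem O_inf (u v : L) : O (u ⊓ v) = O u ∩ O v := by
  ext x
  exact ⟨fun h => ⟨x.isFilter.upward _ _ h inf_le_left, x.isFilter.upward _ _ h inf_le_right⟩,
    fun h => x.isFilter.inf_mem _ _ h.1 h.2⟩

theorem O_sSup (S : Set L) : O (sSup S) = ⋃ u ∈ S, O u := by
  ext x
  simp only [mem_iUnion]
  exact ⟨fun h => by
      obtain ⟨u, hu, hx⟩ := x.completelyPrime S h
      exact ⟨u, hu, hx⟩,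
    fun ⟨u, hu, hx⟩ => x.isFilter.upward _ _ hx (le_sSup hu)⟩

/-- The topology of `pt L`, whose open sets are the sets `O_u`, `u ∈ L`. -/
instance : TopologicalSpace (Pt L) where
  IsOpen s := ∃ u : L, s = O u
  isOpen_univ := ⟨⊤, by ext x; exact ⟨fun _ => x.isFilter.top_mem, fun _ => trivial⟩⟩
  isOpen_inter := by
    rintro _ _ ⟨u, rfl⟩ ⟨v, rfl⟩
    exact ⟨u ⊓ v, (O_inf u v).symm⟩
  isOpen_sUnion := by
    intro S hS
    refine ⟨sSup {u | O u ∈ S}, ?_⟩
    rw [O_sSup]
    ext x
    simp only [mem_sUnion, mem_iUnion]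
    constructor
    · rintro ⟨t, ht, hx⟩
      obtain ⟨u, rfl⟩ := hS t ht
      exact ⟨u, ht, hx⟩
    · rintro ⟨u, hu, hx⟩
      exact ⟨O u, hu, hx⟩

theorem isOpen_iff {s : Set (Pt L)} : IsOpen s ↔ ∃ u : L, s = O u := Iff.rfl

/-- The set of limits of an ultrafilter. -/
def limits {X : Type u} [TopologicalSpace X] (U : Ultrafilter X) : Set X :=
  {x | ∀ s : Set X, IsOpen s → x ∈ s → s ∈ U}

/-- `X` is locally strongly sober. -/
def LocallyStronglySober (X : Type u) [TopologicalSpace X] : Prop :=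
  ∀ U : Ultrafilter X, limits U = ∅ ∨ ∃! x : X, limits U = closure {x}

theorem mem_closure_singleton {x y : Pt L} : y ∈ closure {x} ↔ y.carrier ⊆ x.carrier := by
  rw [mem_closure_iff]
  constructor
  · intro h u hu
    obtain ⟨z, hz, hzx⟩ := h (O u) ⟨u, rfl⟩ hu
    rw [mem_singleton_iff.1 hzx] at hz
    exact hz
  · rintro h _ ⟨u, rfl⟩ hy
    exact ⟨x, h hy, rfl⟩

theorem mem_limits {U : Ultrafilter (Pt L)} {x : Pt L} :
    x ∈ limits U ↔ ∀ u ∈ x.carrier, O u ∈ U :=
  ⟨fun h u hu => h (O u) ⟨u, rfl⟩ hu, by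
    rintro h _ ⟨u, rfl⟩ hx
    exact h u hx⟩

theorem filterJoin_isFilter {F G : Set L} (hF : IsFilterOn F) (hG : IsFilterOn G) :
    IsFilterOn (filterJoin F G) where
  top_mem := ⟨⊤, hF.top_mem, ⊤, hG.top_mem, by simp⟩
  upward := by
    rintro _ w ⟨u, hu, v, hv, rfl⟩ hw
    refine ⟨w ⊔ u, hF.upward _ _ hu le_sup_right, w ⊔ v, hG.upward _ _ hv le_sup_right, ?_⟩
    rw [← sup_inf_left, sup_eq_left.2 hw]
  inf_mem := by
    rintro _ _ ⟨u, hu, v, hv, rfl⟩ ⟨u', hu', v', hv', rfl⟩
    exact ⟨u ⊓ u', hF.inf_mem _ _ hu hu', v ⊓ v', hG.inf_mem _ _ hv hv', by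
      rw [inf_inf_inf_comm]⟩

/-- Every element outside a Scott-open filter is outside some point containing the filter. -/
theorem exists_point {Φ : Set L} (hΦ : IsFilterOn Φ) (hS : IsScottOpen Φ) {w : L}
    (hw : w ∉ Φ) : ∃ z : Pt L, Φ ⊆ z.carrier ∧ w ∉ z.carrier := by
  obtain ⟨v, hwv, hv⟩ : ∃ v, w ≤ v ∧ Maximal (fun v => v ∉ Φ) v := by
    apply zorn_le_nonempty₀ {v | v ∉ Φ} ?_ w hw
    intro c hc hchain y hy
    refine ⟨sSup c, ?_, fun z hz => le_sSup hz⟩
    intro h
    obtain ⟨d, hd, hdΦ⟩ := hS c ⟨y, hy⟩ hchain.directedOn h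
    exact hc hd hdΦ
  have hprime : ∀ a b, a ⊓ b ≤ v → a ≤ v ∨ b ≤ v := by
    intro a b hab
    by_contra hne
    push Not at hne
    have h1 : v ⊔ a ∈ Φ := by
      by_contra h
      exact hne.1 (le_sup_right.trans (hv.2 h le_sup_left))
    have h2 : v ⊔ b ∈ Φ := by
      by_contra h
      exact hne.2 (le_sup_right.trans (hv.2 h le_sup_left))
    have h3 := hΦ.inf_mem _ _ h1 h2
    rw [← sup_inf_left, sup_eq_left.2 hab] at h3
    exact hv.1 h3
  refine ⟨⟨{a | ¬ a ≤ v}, ⟨?_, ?_, ?_⟩, ?_⟩, ?_, ?_⟩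
  · intro h
    exact hv.1 (hΦ.upward _ _ hΦ.top_mem h)
  · intro a b ha hab hb
    exact ha (hab.trans hb)
  · intro a b ha hb hab
    rcases hprime a b hab with h | h
    exacts [ha h, hb h]
  · intro S hS'
    by_contra h
    push Not at h
    apply hS'
    apply sSup_le
    intro a ha
    by_contra hne
    exact h a ha hne
  · intro a ha hav
    exact hv.1 (hΦ.upward _ _ ha hav)
  · exact fun h => h hwv

/-- A completely prime filter is Scott-open. -/
theorem Pt.scottOpen (x : Pt L) : IsScottOpen x.carrier := fun D _ _ h => x.completelyPrime D h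

/-- Any two limits of an ultrafilter on `pt L` have a common upper bound which is a limit. -/
theorem exists_upper (hL : LocallyTemperate L) {U : Ultrafilter (Pt L)} {x y : Pt L}
    (hx : x ∈ limits U) (hy : y ∈ limits U) :
    ∃ z ∈ limits U, x.carrier ⊆ z.carrier ∧ y.carrier ⊆ z.carrier := by
  set Φ := filterJoin x.carrier y.carrier with hΦ
  have hfil : IsFilterOn Φ := filterJoin_isFilter x.isFilter y.isFilter
  have hsc : IsScottOpen Φ := hL _ _ x.isFilter y.isFilter x.scottOpen y.scottOpen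
  have hU : ∀ w ∈ Φ, O w ∈ U := by
    rintro _ ⟨u, hu, v, hv, rfl⟩
    rw [O_inf]
    exact Filter.inter_mem (mem_limits.1 hx u hu) (mem_limits.1 hy v hv)
  -- the elements whose open sets are not in `U`
  let N : Set L := {u | O u ∉ U}
  have hbot : (⊥ : L) ∈ N := by
    have h1 : O (⊥ : L) = ∅ := by
      have := O_sSup (L := L) ∅
      rw [sSup_empty] at this
      rw [this]
      simp
    change O (⊥ : L) ∉ U
    rw [h1]
    exact U.empty_notMem
  have hdir : DirectedOn (· ≤ ·) N := by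
    intro a ha b hb
    refine ⟨a ⊔ b, ?_, le_sup_left, le_sup_right⟩
    have h1 : O (a ⊔ b) = O a ∪ O b := by
      have := O_sSup ({a, b} : Set L)
      rw [sSup_pair] at this
      rw [this]
      simp
    change O (a ⊔ b) ∉ U
    rw [h1]
    intro h
    rcases Ultrafilter.union_mem_iff.1 h with h | h
    exacts [ha h, hb h]
  have hN : sSup N ∉ Φ := by
    intro h
    obtain ⟨d, hd, hdΦ⟩ := hsc N ⟨⊥, hbot⟩ hdir h
    exact hd (hU d hdΦ)
  obtain ⟨z, hz1, hz2⟩ := exists_point hfil hsc hN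
  refine ⟨z, ?_, fun u hu => hz1 ⟨u, hu, ⊤, y.isFilter.top_mem, by simp⟩,
    fun u hu => hz1 ⟨⊤, x.isFilter.top_mem, u, hu, by simp⟩⟩
  rw [mem_limits]
  intro u hu
  by_contra h
  exact hz2 (z.isFilter.upward _ _ hu (le_sSup h))

/-- For every locally temperate frame `L`, the space of points `pt L` is locally strongly
sober. -/
theorem result : ∀ (L : Type u) [Order.Frame L], LocallyTemperate L →
    LocallyStronglySober (Pt L) := by
  intro L _ hL U
  rcases (limits U).eq_empty_or_nonempty with h | ⟨x₀, hx₀⟩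
  · exact Or.inl h
  right
  let p : Pt L :=
    { carrier := {u | ∃ x ∈ limits U, u ∈ x.carrier}
      isFilter :=
        { top_mem := ⟨x₀, hx₀, x₀.isFilter.top_mem⟩
          upward := by
            rintro u v ⟨x, hx, hu⟩ huv
            exact ⟨x, hx, x.isFilter.upward _ _ hu huv⟩
          inf_mem := by
            rintro u v ⟨x, hx, hu⟩ ⟨y, hy, hv⟩
            obtain ⟨z, hz, hxz, hyz⟩ := exists_upper hL hx hy
            exact ⟨z, hz, z.isFilter.inf_mem _ _ (hxz hu) (hyz hv)⟩ }
      completelyPrime := by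
        rintro S ⟨x, hx, hu⟩
        obtain ⟨u, hu, hux⟩ := x.completelyPrime S hu
        exact ⟨u, hu, x, hx, hux⟩ }
  have hp : p ∈ limits U := by
    rw [mem_limits]
    rintro u ⟨x, hx, hu⟩
    exact mem_limits.1 hx u hu
  refine ⟨p, ?_, ?_⟩
  · ext y
    rw [mem_closure_singleton]
    constructor
    · intro hy u hu
      exact ⟨y, hy, hu⟩
    · intro hy
      rw [mem_limits]
      intro u hu
      exact mem_limits.1 hp u (hy hu)
  · intro q hq
    apply Pt.ext
    apply Subset.antisymm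
    · have hq' : q ∈ limits U := by rw [hq]; exact subset_closure rfl
      intro u hu
      exact ⟨q, hq', hu⟩
    · have hp' : p ∈ closure {q} := hq ▸ hp
      exact mem_closure_singleton.1 hp'

end Pool.Agent.Results.MP_405999_gt.PointSpace
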